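import Mathlib

/-! MP_9c3df6_al: compatible monomial algebras with straightening laws on the ideal lattice of a
disjoint union of chains. -/

open MvPolynomial

namespace Pool.Agent.Results.MP_9c3df6_al.CompatibleChains

universe u v z

/-- `P` is a disjoint union of chains: some map `c` (sending an element to its chain) satisfies
`c x = c y` exactly when `x` and `y` are comparable. -/
def IsDisjointUnionOfChains (P : Type u) [PartialOrder P] : Prop :=
  ∃ (ι : Type u) (c : P → ι), ∀ x y, c x = c y ↔ (x ≤ y ∨ y ≤ x)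

variable {P : Type u} [PartialOrder P]

/-- The generator `w_I t` of `K[Ω]`, in `K[x_s (s ∈ σ), t]`; here `t` is the variable `none`
and `w I` is the exponent vector of the monomial `w_I` in the variables `x_s`. -/
noncomputable def gen (K : Type v) [Field K] {σ : Type z} (w : LowerSet P → (σ →₀ ℕ))
    (I : LowerSet P) : MvPolynomial (Option σ) K :=
  rename some (monomial (w I) (1 : K)) * X none

/-- Multisets of poset ideals that form chains: the index set of the standard monomials. -/
def StdIndex (P : Type u) [PartialOrder P] : Type u :=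
  {m : Multiset (LowerSet P) // ∀ a ∈ m, ∀ b ∈ m, a ≤ b ∨ b ≤ a}

/-- The standard monomial attached to a multiset of ideals forming a chain. -/
noncomputable def stdMonomial (K : Type v) [Field K] {σ : Type z} (w : LowerSet P → (σ →₀ ℕ))
    (m : StdIndex P) : MvPolynomial (Option σ) K :=
  (m.1.map (gen K w)).prod

/-- `K[Ω]` is an algebra with straightening laws on `J(P)` via `I ↦ w_I t`. -/
structure IsMonomialASL (K : Type v) [Field K] {σ : Type z}
    (w : LowerSet P → (σ →₀ ℕ)) : Prop where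
  /-- `I ↦ w_I t` is injective -/
  inj : Function.Injective (gen K w)
  /-- the standard monomials are linearly independent -/
  linInd : LinearIndependent K (stdMonomial K w)
  /-- the standard monomials span `K[Ω]` -/
  span : Submodule.span K (Set.range (stdMonomial K w)) =
    Subalgebra.toSubmodule (Algebra.adjoin K (Set.range (gen K w)))
  /-- the straightening law: in the expansion of the product of two incomparable generators, each
  occurring standard monomial has its smallest factor below both -/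
  straighten : ∀ I I' : LowerSet P, ¬ I ≤ I' → ¬ I' ≤ I → ∀ c : StdIndex P →₀ K,
    gen K w I * gen K w I' = c.sum (fun m r => r • stdMonomial K w m) →
    ∀ m ∈ c.support, ∃ γ ∈ m.1, (∀ δ ∈ m.1, γ ≤ δ) ∧ γ ≤ I ∧ γ ≤ I'

/-- `φ(I)φ(I') = φ(J)φ(J')` is the straightening relation of the incomparable pair `I, I'`
(the right-hand side being a standard monomial). -/
def IsStraighteningRelation (K : Type v) [Field K] {σ : Type z} (w : LowerSet P → (σ →₀ ℕ))
    (I I' J J' : LowerSet P) : Prop :=
  ¬ I ≤ I' ∧ ¬ I' ≤ I ∧ J ≤ J' ∧ gen K w I * gen K w I' = gen K w J * gen K w J'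

/-- The ASL `K[Ω]` is compatible: every straightening relation has the form
`φ(I)φ(I') = φ(J)φ(J')` with `J ⊆ I ∩ I'` and `I ∪ I' ⊆ J'`. -/
def IsCompatible (K : Type v) [Field K] {σ : Type z} (w : LowerSet P → (σ →₀ ℕ)) : Prop :=
  ∀ I I' : LowerSet P, ¬ I ≤ I' → ¬ I' ≤ I → ∃ J J' : LowerSet P, J ≤ I ⊓ I' ∧ I ⊔ I' ≤ J' ∧
    IsStraighteningRelation K w I I' J J'

open Classical in
/-- The exponents of the toric ring `K[O(P)]` of the order polytope: `w_I = ∏_{p ∈ I} x_p`. -/
noncomputable def orderWeight (P : Type u) [PartialOrder P] [Finite P] (I : LowerSet P) :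
    P →₀ ℕ :=
  Finsupp.equivFunOnFinite.symm (fun p => if p ∈ I then 1 else 0)

theorem eq_of_std {K : Type v} [Field K] {σ : Type z} {w : LowerSet P → (σ →₀ ℕ)}
    (hw : IsMonomialASL K w) {m m' : Multiset (LowerSet P)}
    (hm : ∀ a ∈ m, ∀ b ∈ m, a ≤ b ∨ b ≤ a) (hm' : ∀ a ∈ m', ∀ b ∈ m', a ≤ b ∨ b ≤ a)
    (h : (m.map (gen K w)).prod = (m'.map (gen K w)).prod) : m = m' := by
  have := hw.linInd.injective (a₁ := ⟨m, hm⟩) (a₂ := ⟨m', hm'⟩) h
  exact congrArg Subtype.val this

theorem chain3 {a b c : LowerSet P} (h1 : a ≤ b) (h2 : b ≤ c) :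
    ∀ x ∈ ({a, b, c} : Multiset (LowerSet P)), ∀ y ∈ ({a, b, c} : Multiset (LowerSet P)),
      x ≤ y ∨ y ≤ x := by
  intro x hx y hy
  simp only [Multiset.insert_eq_cons, Multiset.mem_cons, Multiset.mem_singleton] at hx hy
  have h3 := h1.trans h2
  rcases hx with rfl | rfl | rfl <;> rcases hy with rfl | rfl | rfl <;> simp [*]

/-- the upward step -/
theorem up_step {K : Type v} [Field K] {σ : Type z} {w : LowerSet P → (σ →₀ ℕ)}
    (hw : IsMonomialASL K w) (hc : IsCompatible K w) {I I' J J' : LowerSet P}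
    (h1 : ¬ I ≤ I') (h2 : ¬ I' ≤ I) (hJ : J ≤ I ⊓ I') (hJ' : I ⊔ I' ≤ J')
    (hrel : gen K w I * gen K w I' = gen K w J * gen K w J') (p : P) (hpI : p ∉ I)
    (hpI' : p ∉ I') (hpJ' : p ∈ J') (hlow : ∀ q < p, q ∈ I) : False := by
  classical
  set N : LowerSet P := ⟨insert p (I : Set P), by
    intro a b hba ha
    rcases ha with rfl | ha
    · rcases hba.eq_or_lt with rfl | hlt
      · exact Or.inl rfl
      · exact Or.inr (hlow b hlt)
    · exact Or.inr (I.lower hba ha)⟩ with hN
  have hmemN : ∀ q, q ∈ N ↔ q = p ∨ q ∈ I := fun q => Iff.rfl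
  have hIN : I ≤ N := fun q hq => Or.inr hq
  have hNI : ¬ N ≤ I := fun h => hpI (h (Or.inl rfl))
  have hNI' : ¬ N ≤ I' := fun h => h1 (hIN.trans h)
  have hI'N : ¬ I' ≤ N := by
    intro h
    apply h2
    intro q hq
    rcases (hmemN q).1 (h hq) with rfl | h'
    · exact absurd hq hpI'
    · exact h'
  obtain ⟨L, L', hL, hL', -, -, -, hrel'⟩ := hc N I' hNI' hI'N
  have hLI : L ≤ I := by
    intro q hq
    have h3 := hL hq
    rcases (hmemN q).1 h3.1 with rfl | h'
    · exact absurd h3.2 hpI'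
    · exact h'
  have hNJ' : N ≤ J' := by
    intro q hq
    rcases (hmemN q).1 hq with rfl | h'
    · exact hpJ'
    · exact hJ' (Or.inl h')
  have hJI : J ≤ I := hJ.trans inf_le_left
  have hNL' : N ≤ L' := le_sup_left.trans hL'
  have heq : ({J, N, J'} : Multiset (LowerSet P)) = {L, I, L'} := by
    apply eq_of_std hw (chain3 (hJI.trans hIN) hNJ') (chain3 hLI (hIN.trans hNL'))
    simp only [Multiset.insert_eq_cons, Multiset.map_cons, Multiset.map_singleton,
      Multiset.prod_cons, Multiset.prod_singleton]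
    calc gen K w J * (gen K w N * gen K w J')
        = gen K w N * (gen K w J * gen K w J') := by ring
      _ = gen K w I * (gen K w N * gen K w I') := by rw [← hrel]; ring
      _ = gen K w L * (gen K w I * gen K w L') := by rw [hrel']; ring
  have hcount := congrArg (Multiset.countP (fun x => N ≤ x)) heq
  have hNJ : ¬ N ≤ J := fun h => hNI (h.trans hJI)
  have hNL : ¬ N ≤ L := fun h => hNI (h.trans hLI)
  simp [Multiset.insert_eq_cons, ← Multiset.cons_zero, hNJ, hNL, hNI, hNJ',
    hNL'] at hcount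

/-- the downward step -/
theorem down_step {K : Type v} [Field K] {σ : Type z} {w : LowerSet P → (σ →₀ ℕ)}
    (hw : IsMonomialASL K w) (hc : IsCompatible K w) {I I' J J' : LowerSet P}
    (h1 : ¬ I ≤ I') (h2 : ¬ I' ≤ I) (hJ : J ≤ I ⊓ I') (hJ' : I ⊔ I' ≤ J')
    (hrel : gen K w I * gen K w I' = gen K w J * gen K w J') (p : P) (hpI : p ∈ I)
    (hpI' : p ∈ I') (hpJ : p ∉ J) (hup : ∀ q, p < q → q ∉ I) : False := by
  classical
  set N : LowerSet P := ⟨(I : Set P) \ {p}, by
    intro a b hba ha
    refine ⟨I.lower hba ha.1, ?_⟩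
    rintro rfl
    rcases hba.eq_or_lt with h | hlt
    · exact ha.2 h.symm
    · exact hup a hlt ha.1⟩ with hN
  have hmemN : ∀ q, q ∈ N ↔ q ∈ I ∧ q ≠ p := fun q => Iff.rfl
  have hNI : N ≤ I := fun q hq => hq.1
  have hIN : ¬ I ≤ N := fun h => ((hmemN p).1 (h hpI)).2 rfl
  have hI'N : ¬ I' ≤ N := fun h => h2 (h.trans hNI)
  have hNI' : ¬ N ≤ I' := by
    intro h
    apply h1
    intro q hq
    by_cases hqp : q = p
    · rw [hqp]; exact hpI'
    · exact h ⟨hq, hqp⟩
  obtain ⟨L, L', hL, hL', -, -, -, hrel'⟩ := hc N I' hNI' hI'N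
  have hLN : L ≤ N := hL.trans inf_le_left
  have hIL' : I ≤ L' := by
    intro q hq
    by_cases hqp : q = p
    · rw [hqp]; exact hL' (Or.inr hpI')
    · exact hL' (Or.inl ⟨hq, hqp⟩)
  have hJN : J ≤ N := by
    intro q hq
    exact ⟨(hJ hq).1, fun h => hpJ (h ▸ hq)⟩
  have hIJ' : I ≤ J' := le_sup_left.trans hJ'
  have heq : ({J, N, J'} : Multiset (LowerSet P)) = {L, I, L'} := by
    apply eq_of_std hw (chain3 hJN (hNI.trans hIJ')) (chain3 (hLN.trans hNI) hIL')
    simp only [Multiset.insert_eq_cons, Multiset.map_cons, Multiset.map_singleton,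
      Multiset.prod_cons, Multiset.prod_singleton]
    calc gen K w J * (gen K w N * gen K w J')
        = gen K w N * (gen K w J * gen K w J') := by ring
      _ = gen K w I * (gen K w N * gen K w I') := by rw [← hrel]; ring
      _ = gen K w L * (gen K w I * gen K w L') := by rw [hrel']; ring
  have hcount := congrArg (Multiset.countP (fun x => x ≤ N)) heq
  have hJ'N : ¬ J' ≤ N := fun h => hIN (hIJ'.trans h)
  have hL'N : ¬ L' ≤ N := fun h => hIN (hIL'.trans h)
  simp [Multiset.insert_eq_cons, ← Multiset.cons_zero, hJN, hLN, hIN, hJ'N,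
    hL'N] at hcount

theorem upper_eq [Finite P] (hP : IsDisjointUnionOfChains P) {K : Type v} [Field K] {σ : Type z}
    {w : LowerSet P → (σ →₀ ℕ)}
    (hw : IsMonomialASL K w) (hc : IsCompatible K w) {I I' J J' : LowerSet P}
    (h1 : ¬ I ≤ I') (h2 : ¬ I' ≤ I) (hJ : J ≤ I ⊓ I') (hJ' : I ⊔ I' ≤ J')
    (hrel : gen K w I * gen K w I' = gen K w J * gen K w J') : J' = I ⊔ I' := by
  by_contra hne
  have hex : ({p | p ∈ J' ∧ p ∉ I ∧ p ∉ I'} : Set P).Nonempty := by
    by_contra h
    apply hne
    apply le_antisymm _ hJ'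
    intro q hq
    by_contra hq'
    apply h
    exact ⟨q, hq, fun h => hq' (Or.inl h), fun h => hq' (Or.inr h)⟩
  obtain ⟨p, hp⟩ := (Set.toFinite {p | p ∈ J' ∧ p ∉ I ∧ p ∉ I'}).exists_minimal hex
  have hlow : ∀ q < p, q ∈ I ∨ q ∈ I' := by
    intro q hq
    by_contra h
    push Not at h
    have := hp.2 ⟨J'.lower hq.le hp.1.1, h.1, h.2⟩ hq.le
    exact absurd hq (not_lt_of_ge this)
  obtain ⟨ι, c, hcc⟩ := hP
  by_cases hA : ∀ q < p, q ∈ I
  · exact up_step hw hc h1 h2 hJ hJ' hrel p hp.1.2.1 hp.1.2.2 hp.1.1 hA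
  by_cases hB : ∀ q < p, q ∈ I'
  · exact up_step hw hc h2 h1 (hJ.trans (inf_comm I I').le) ((sup_comm I' I).le.trans hJ')
      ((mul_comm _ _).trans hrel) p hp.1.2.2 hp.1.2.1 hp.1.1 hB
  push Not at hA hB
  obtain ⟨q1, hq1, hq1'⟩ := hA
  obtain ⟨q2, hq2, hq2'⟩ := hB
  have e1 : c q1 = c p := (hcc q1 p).2 (Or.inl hq1.le)
  have e2 : c q2 = c p := (hcc q2 p).2 (Or.inl hq2.le)
  rcases (hcc q1 q2).1 (e1.trans e2.symm) with h | h
  · exact hq1' (I.lower h ((hlow q2 hq2).resolve_right hq2'))
  · exact hq2' (I'.lower h ((hlow q1 hq1).resolve_left hq1'))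

theorem lower_eq [Finite P] (hP : IsDisjointUnionOfChains P) {K : Type v} [Field K] {σ : Type z}
    {w : LowerSet P → (σ →₀ ℕ)}
    (hw : IsMonomialASL K w) (hc : IsCompatible K w) {I I' J J' : LowerSet P}
    (h1 : ¬ I ≤ I') (h2 : ¬ I' ≤ I) (hJ : J ≤ I ⊓ I') (hJ' : I ⊔ I' ≤ J')
    (hrel : gen K w I * gen K w I' = gen K w J * gen K w J') : J = I ⊓ I' := by
  by_contra hne
  have hex : ({p | p ∉ J ∧ p ∈ I ∧ p ∈ I'} : Set P).Nonempty := by
    by_contra h
    apply hne
    apply le_antisymm hJ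
    intro q hq
    by_contra hq'
    apply h
    exact ⟨q, hq', hq.1, hq.2⟩
  obtain ⟨p, hp⟩ := (Set.toFinite {p | p ∉ J ∧ p ∈ I ∧ p ∈ I'}).exists_maximal hex
  have hup : ∀ q, p < q → q ∈ I → q ∈ I' → False := by
    intro q hq hqI hqI'
    have hqJ : q ∉ J := fun h => hp.1.1 (J.lower hq.le h)
    have := hp.2 ⟨hqJ, hqI, hqI'⟩ hq.le
    exact absurd hq (not_lt_of_ge this)
  obtain ⟨ι, c, hcc⟩ := hP
  by_cases hA : ∀ q, p < q → q ∉ I
  · exact down_step hw hc h1 h2 hJ hJ' hrel p hp.1.2.1 hp.1.2.2 hp.1.1 hA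
  by_cases hB : ∀ q, p < q → q ∉ I'
  · exact down_step hw hc h2 h1 (hJ.trans (inf_comm I I').le) ((sup_comm I' I).le.trans hJ')
      ((mul_comm _ _).trans hrel) p hp.1.2.2 hp.1.2.1 hp.1.1 hB
  push Not at hA hB
  obtain ⟨q1, hq1, hq1'⟩ := hA
  obtain ⟨q2, hq2, hq2'⟩ := hB
  have e1 : c p = c q1 := (hcc p q1).2 (Or.inl hq1.le)
  have e2 : c p = c q2 := (hcc p q2).2 (Or.inl hq2.le)
  rcases (hcc q1 q2).1 (e1.symm.trans e2) with h | h
  · exact hup q1 hq1 hq1' (I'.lower h hq2')
  · exact hup q2 hq2 (I.lower h hq1') hq2'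

theorem gen_mul (K : Type v) [Field K] {σ : Type z} (w : LowerSet P → (σ →₀ ℕ))
    (I I' : LowerSet P) : gen K w I * gen K w I' =
      monomial ((w I + w I').mapDomain some + Finsupp.single none 2) (1 : K) := by
  unfold gen
  rw [rename_monomial, rename_monomial, X, monomial_mul, monomial_mul, monomial_mul,
    Finsupp.mapDomain_add]
  have : (Finsupp.single (none : Option σ) 2 : Option σ →₀ ℕ) =
      Finsupp.single none 1 + Finsupp.single none 1 := by
    rw [← Finsupp.single_add]
  rw [this]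
  simp only [mul_one]
  rw [add_add_add_comm]

theorem gen_mul_eq_iff (K : Type v) [Field K] {σ : Type z} (w : LowerSet P → (σ →₀ ℕ))
    (I I' J J' : LowerSet P) : gen K w I * gen K w I' = gen K w J * gen K w J' ↔
      w I + w I' = w J + w J' := by
  rw [gen_mul, gen_mul]
  constructor
  · intro h
    have h1 := monomial_left_injective (one_ne_zero (α := K)) h
    have h2 := add_right_cancel h1
    exact Finsupp.mapDomain_injective (Option.some_injective σ) h2
  · intro h
    rw [h]

theorem order_rel_iff [Finite P] (K : Type v) [Field K] (I I' J J' : LowerSet P) (hJ : J ≤ J') :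
    gen K (orderWeight P) I * gen K (orderWeight P) I' =
      gen K (orderWeight P) J * gen K (orderWeight P) J' ↔ J = I ⊓ I' ∧ J' = I ⊔ I' := by
  classical
  rw [gen_mul_eq_iff]
  have key : ∀ (A : LowerSet P) (p : P), orderWeight P A p = if p ∈ A then 1 else 0 := by
    intro A p
    simp [orderWeight]
  constructor
  · intro h
    have hp : ∀ p : P, ((if p ∈ I then 1 else 0) + (if p ∈ I' then 1 else 0) : ℕ) =
        (if p ∈ J then 1 else 0) + (if p ∈ J' then 1 else 0) := by
      intro p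
      have := DFunLike.congr_fun h p
      rwa [Finsupp.add_apply, Finsupp.add_apply, key, key, key, key] at this
    constructor
    · apply SetLike.ext
      intro p
      have h1 := hp p
      have h2 : p ∈ J → p ∈ J' := fun h => hJ h
      rw [LowerSet.mem_inf_iff]
      by_cases hI : p ∈ I <;> by_cases hI' : p ∈ I' <;> by_cases hj : p ∈ J <;>
        by_cases hj' : p ∈ J' <;> simp [hI, hI', hj, hj'] at h1 h2 ⊢
    · apply SetLike.ext
      intro p
      have h1 := hp p
      have h2 : p ∈ J → p ∈ J' := fun h => hJ h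
      rw [LowerSet.mem_sup_iff]
      by_cases hI : p ∈ I <;> by_cases hI' : p ∈ I' <;> by_cases hj : p ∈ J <;>
        by_cases hj' : p ∈ J' <;> simp [hI, hI', hj, hj'] at h1 h2 ⊢
  · rintro ⟨rfl, rfl⟩
    ext p
    rw [Finsupp.add_apply, Finsupp.add_apply, key, key, key, key]
    have e1 : p ∈ I ⊓ I' ↔ p ∈ I ∧ p ∈ I' := Iff.rfl
    have e2 : p ∈ I ⊔ I' ↔ p ∈ I ∨ p ∈ I' := Iff.rfl
    by_cases h1 : p ∈ I <;> by_cases h2 : p ∈ I' <;> simp [e1, e2, h1, h2]

/-- If `P` is a finite disjoint union of chains, then every compatible (monomial) ASL on `J(P)`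
has the same straightening relations as `K[O(P)]`. -/
theorem result (P : Type u) [PartialOrder P] [Finite P] (hP : IsDisjointUnionOfChains P)
    (K : Type v) [Field K] (σ : Type z) [Finite σ] (w : LowerSet P → (σ →₀ ℕ))
    (hw : IsMonomialASL K w) (hc : IsCompatible K w) (I I' J J' : LowerSet P) :
    IsStraighteningRelation K w I I' J J' ↔
      IsStraighteningRelation K (orderWeight P) I I' J J' := by
  unfold IsStraighteningRelation
  constructor
  · rintro ⟨h1, h2, hJJ', hrel⟩
    refine ⟨h1, h2, hJJ', (order_rel_iff K I I' J J' hJJ').2 ?_⟩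
    obtain ⟨A, A', hA, hA', -, -, hAA', hrelA⟩ := hc I I' h1 h2
    have e1 := lower_eq hP hw hc h1 h2 hA hA' hrelA
    have e2 := upper_eq hP hw hc h1 h2 hA hA' hrelA
    -- uniqueness of the standard expansion
    have hm : ({J, J'} : Multiset (LowerSet P)) = {A, A'} := by
      apply eq_of_std hw
      · intro x hx y hy
        simp only [Multiset.insert_eq_cons, Multiset.mem_cons, Multiset.mem_singleton] at hx hy
        rcases hx with rfl | rfl <;> rcases hy with rfl | rfl <;> simp [*]
      · intro x hx y hy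
        simp only [Multiset.insert_eq_cons, Multiset.mem_cons, Multiset.mem_singleton] at hx hy
        rcases hx with h | h <;> rcases hy with h' | h' <;> rw [h, h'] <;> simp [hAA']
      · simp only [Multiset.insert_eq_cons, Multiset.map_cons, Multiset.map_singleton,
          Multiset.prod_cons, Multiset.prod_singleton]
        rw [← hrel, hrelA]
    have hJ1 : J ∈ ({A, A'} : Multiset (LowerSet P)) := by rw [← hm]; simp
    have hJ2 : J' ∈ ({A, A'} : Multiset (LowerSet P)) := by rw [← hm]; simp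
    have hA1 : A ∈ ({J, J'} : Multiset (LowerSet P)) := by rw [hm]; simp
    have hA2 : A' ∈ ({J, J'} : Multiset (LowerSet P)) := by rw [hm]; simp
    simp only [Multiset.insert_eq_cons, Multiset.mem_cons, Multiset.mem_singleton] at hJ1 hJ2
    simp only [Multiset.insert_eq_cons, Multiset.mem_cons, Multiset.mem_singleton] at hA1 hA2
    have f1 : J = A := by
      apply le_antisymm
      · rcases hA1 with h | h
        · exact h.ge
        · rw [h]; exact hJJ'
      · rcases hJ1 with h | h
        · exact h.ge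
        · rw [h]; exact hAA'
    have f2 : J' = A' := by
      apply le_antisymm
      · rcases hJ2 with h | h
        · rw [h]; exact hAA'
        · exact h.le
      · rcases hA2 with h | h
        · rw [h]; exact hJJ'
        · exact h.le
    exact ⟨f1.trans e1, f2.trans e2⟩
  · rintro ⟨h1, h2, hJJ', hrel⟩
    refine ⟨h1, h2, hJJ', ?_⟩
    obtain ⟨rfl, rfl⟩ := (order_rel_iff K I I' J J' hJJ').1 hrel
    obtain ⟨A, A', hA, hA', -, -, hAA', hrelA⟩ := hc I I' h1 h2
    have e1 := lower_eq hP hw hc h1 h2 hA hA' hrelA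
    have e2 := upper_eq hP hw hc h1 h2 hA hA' hrelA
    rw [← e1, ← e2]
    exact hrelA

end Pool.Agent.Results.MP_9c3df6_al.CompatibleChains
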